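import Pool.Agent.Run7.h77.RO.Defs

set_option autoImplicit false

/-! Pieces DU0, DU1 of the project RO (MP_e6c71b_co). -/

namespace Run7.h648.RO

open Run7.h77.RO Finset

lemma card_ge (n a : ℕ) : ((range n).filter (fun y => a ≤ y)).card = n - a := by
  have : (range n).filter (fun y => a ≤ y) = Ico a n := by
    ext y
    simp only [mem_filter, mem_range, mem_Ico]
    omega
  rw [this, Nat.card_Ico]

lemma cnt_eq {p : ℕ} {B w v : ℕ} {H : SimpleGraph (Fin w)} {k : Kd p} {x : ℕ} {k' : Kd p}
    (P : ℕ → Prop) [DecidablePred P] (n : ℕ) (hn : sz B w v k' = n)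
    (h : ∀ y, y < n → (A2 B w v H k x k' y ↔ P y)) :
    cnt B w v H k x k' = ((range n).filter P).card := by
  classical
  unfold cnt
  rw [hn]
  congr 1
  ext y
  simp only [mem_filter, mem_range]
  exact and_congr_right fun hy => h y hy

lemma cnt_zero {p : ℕ} {B w v : ℕ} {H : SimpleGraph (Fin w)} {k : Kd p} {x : ℕ} {k' : Kd p}
    (h : ∀ y, ¬ A2 B w v H k x k' y) : cnt B w v H k x k' = 0 := by
  rw [cnt_eq (fun _ => False) _ rfl fun y _ => iff_of_false (h y) id]
  simp

theorem t_DU0 : S_DU0 := by
  intro p B w v m D H hP j hj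
  have hw := hP.hw
  have hv := hP.hv
  have hT : (2 * p + 3) * w ≤ w * v := by
    rw [mul_comm w v]
    exact Nat.mul_le_mul_right _ (by omega)
  have r0 : cnt B w v H (.u0 : Kd p) j (.r 0) = 2 * B * w - j := by
    rw [cnt_eq (fun z => j ≤ z) (2 * B * w) rfl (fun z _ => by simp [A2, E]), card_ge]
  have r1 : cnt B w v H (.u0 : Kd p) j (.r 1) = 0 := cnt_zero fun y => by simp [A2, E]
  have r2 : cnt B w v H (.u0 : Kd p) j (.r 2) = 0 := cnt_zero fun y => by simp [A2, E]
  have ra : ∀ i : Fin p, cnt B w v H (.u0 : Kd p) j (.a i) = 0 := fun i =>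
    cnt_zero fun y => by simp [A2, E]
  have rb : ∀ i : Fin p, cnt B w v H (.u0 : Kd p) j (.b i) = 0 := fun i =>
    cnt_zero fun y => by simp [A2, E]
  have u0 : cnt B w v H (.u0 : Kd p) j .u0 = 0 := cnt_zero fun y => by simp [A2, E]
  have u1 : cnt B w v H (.u0 : Kd p) j .u1 = (2 * p + 3) * w := by
    rw [cnt_eq (fun z => w * v - (2 * p + 3) * w ≤ z) (w * v) rfl
      (fun z _ => by
        simp only [A2, E, or_false]
        generalize (2 * p + 3) * w = T at *
        generalize w * v = Q at *
        omega), card_ge]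
    omega
  have u2 : cnt B w v H (.u0 : Kd p) j .u2 = 0 := cnt_zero fun y => by simp [A2, E]
  have l1 : cnt B w v H (.u0 : Kd p) j .l1 = 0 := cnt_zero fun y => by simp [A2, E]
  have l2 : cnt B w v H (.u0 : Kd p) j .l2 = 0 := cnt_zero fun y => by simp [A2, E]
  unfold dg
  simp only [r0, r1, r2, ra, rb, u0, u1, u2, l1, l2, sum_const_zero]
  omega

/-- counting in full periods -/
lemma count_per (P : ℕ) (hP : 0 < P) (c : ℕ) (n : ℕ) :
    Nat.count (fun x => c ≤ x % P) (n * P) = n * (P - c) := by
  induction n with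
  | zero => simp
  | succ n ih =>
    rw [Nat.succ_mul, Nat.count_add, ih, Nat.succ_mul]
    congr 1
    rw [Nat.count_eq_card_filter_range]
    have : (range P).filter (fun k => c ≤ (n * P + k) % P) = (range P).filter (fun k => c ≤ k) := by
      apply filter_congr
      intro k hk
      rw [mem_range] at hk
      rw [Nat.add_comm, Nat.add_mul_mod_self_right, Nat.mod_eq_of_lt hk]
    rw [this, card_ge]

lemma card_per (P : ℕ) (hP : 0 < P) (c j n : ℕ) :
    ((range (n * P)).filter (fun z => c ≤ (z + j) % P)).card = n * (P - c) := by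
  have hper : Function.Periodic (fun x => c ≤ x % P) (n * P) := by
    intro x
    simp
  have h1 := Nat.filter_Ico_card_eq_of_periodic j (n * P) (fun x => c ≤ x % P) hper
  rw [count_per P hP c n] at h1
  rw [← h1]
  refine card_bij (fun z _ => z + j) ?_ ?_ ?_
  · intro z hz
    simp only [mem_filter, mem_range, mem_Ico] at hz ⊢
    exact ⟨⟨by omega, by omega⟩, hz.2⟩
  · intro a _ b _ h
    simpa using h
  · intro y hy
    simp only [mem_filter, mem_Ico] at hy
    refine ⟨y - j, ?_, by omega⟩
    simp only [mem_filter, mem_range]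
    rw [Nat.sub_add_cancel hy.1.1]
    exact ⟨by omega, hy.2⟩

theorem t_DU1 : S_DU1 := by
  intro p B w v m D H hP j hj
  have hw := hP.hw
  have hm := hP.hm
  have hv := hP.hv
  have hT : (2 * p + 3) * w ≤ w * v := by
    rw [mul_comm w v]
    exact Nat.mul_le_mul_right _ (by omega)
  have hQpos : 0 < w * v := Nat.mul_pos hw (by omega)
  have hwQ : 4 * w ≤ w * v := by
    rw [mul_comm w v]
    exact Nat.mul_le_mul_right _ (by omega)
  have hZ : B * w = 2 * m * (w * v) := by
    rw [hP.hB]
    ring
  have hN : 2 * B * w = 2 * (B * w) := by ring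
  have h2 : 2 * w * v = 2 * (w * v) := by ring
  have h4 : 4 * w * m = 2 * m * (2 * w) := by ring
  have hZQ : w * v ≤ B * w := by
    rw [hZ]
    exact Nat.le_mul_of_pos_left _ (by omega)
  -- the circular class 1
  have r1 : cnt B w v H (.u1 : Kd p) j (.r 1) =
      2 * m * (w * v - 2 * w) + (B * w - (w - 1 - j)) := by
    rw [cnt_eq (fun z => (z < B * w → 2 * w ≤ (z + j) % (w * v)) ∧
      (B * w ≤ z → B * w + w ≤ j + z + 1)) (2 * B * w) rfl (fun z _ => by simp [A2, E])]
    have hsplit : (range (2 * B * w)).filter (fun z => (z < B * w → 2 * w ≤ (z + j) % (w * v)) ∧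
        (B * w ≤ z → B * w + w ≤ j + z + 1)) =
        (range (2 * m * (w * v))).filter (fun z => 2 * w ≤ (z + j) % (w * v)) ∪
          Ico (B * w + (w - 1 - j)) (2 * B * w) := by
      rw [← hZ, hN]
      ext z
      simp only [mem_filter, mem_range, mem_union, mem_Ico]
      by_cases hz : z < B * w
      · constructor
        · rintro ⟨h1, h3, -⟩
          exact Or.inl ⟨hz, h3 hz⟩
        · rintro (h1 | h1)
          · exact ⟨by omega, fun _ => h1.2, fun h => absurd h (by omega)⟩
          · exfalso
            omega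
      · constructor
        · rintro ⟨h1, -, h3⟩
          have := h3 (by omega)
          exact Or.inr ⟨by omega, h1⟩
        · rintro (h1 | h1)
          · exfalso
            omega
          · exact ⟨h1.2, fun h => absurd h hz, fun _ => by omega⟩
    rw [hsplit, card_union_of_disjoint, card_per _ hQpos, Nat.card_Ico]
    · omega
    · rw [disjoint_left]
      intro z h1 h3
      simp only [mem_filter, mem_range, mem_Ico] at h1 h3
      rw [← hZ] at h1
      omega
  have r0 : cnt B w v H (.u1 : Kd p) j (.r 0) = 0 := cnt_zero fun y => by simp [A2, E]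
  have r2 : cnt B w v H (.u1 : Kd p) j (.r 2) = 0 := cnt_zero fun y => by simp [A2, E]
  have ra : ∀ i : Fin p, cnt B w v H (.u1 : Kd p) j (.a i) =
      if w * v ≤ j + (2 * p + 3) * w then w else 0 := by
    intro i
    split_ifs with hc
    · rw [cnt_eq (fun z => 2 * B * w ≤ z) (2 * B * w + w) rfl
        (fun z _ => by simp [A2, E, hc]), card_ge]
      omega
    · exact cnt_zero fun y => by simp [A2, E, hc]
  have rb : ∀ i : Fin p, cnt B w v H (.u1 : Kd p) j (.b i) = 0 := fun i =>
    cnt_zero fun y => by simp [A2, E]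
  have u0 : cnt B w v H (.u1 : Kd p) j .u0 = if w * v ≤ j + (2 * p + 3) * w then w else 0 := by
    split_ifs with hc
    · rw [cnt_eq (fun z => 0 ≤ z) w rfl (fun z _ => by simp [A2, E, hc]), card_ge]
      omega
    · exact cnt_zero fun y => by simp [A2, E, hc]
  have u1 : cnt B w v H (.u1 : Kd p) j .u1 = 0 := cnt_zero fun y => by simp [A2, E]
  have u2 : cnt B w v H (.u1 : Kd p) j .u2 = 2 * w * v - (2 * w - j) := by
    rw [cnt_eq (fun z => 2 * w - j ≤ z) (2 * w * v) rfl
      (fun z _ => by
        simp only [A2, E, or_false]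
        omega), card_ge]
  have l1 : cnt B w v H (.u1 : Kd p) j .l1 = j + 1 - 2 * w := by
    rw [cnt_eq (fun z => w * v - 1 - j ≤ z) (w * v - 2 * w) rfl
      (fun z _ => by
        simp only [A2, E, false_or]
        generalize w * v = Q at *
        omega), card_ge]
    generalize w * v = Q at *
    omega
  have l2 : cnt B w v H (.u1 : Kd p) j .l2 = 0 := cnt_zero fun y => by simp [A2, E]
  unfold dg
  simp only [r0, r1, r2, ra, rb, u0, u1, u2, l1, l2, sum_const_zero, sum_const, card_univ,
    Fintype.card_fin, smul_eq_mul]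
  have hper : 2 * m * (w * v - 2 * w) + 4 * w * m = B * w := by
    rw [h4, ← mul_add, Nat.sub_add_cancel (by omega), hZ]
  have hpw : (p + 1) * w = p * w + w := by ring
  split_ifs with hc
  · rw [hN, h2, hpw]
    generalize 2 * m * (w * v - 2 * w) = S at *
    generalize 4 * w * m = T4 at *
    generalize w * v = Q at *
    generalize B * w = Z at *
    generalize p * w = R at *
    omega
  · rw [hN, h2, mul_zero]
    generalize 2 * m * (w * v - 2 * w) = S at *
    generalize 4 * w * m = T4 at *
    generalize w * v = Q at *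
    generalize B * w = Z at *
    omega

end Run7.h648.RO
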